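import Pool.Agent.K3h83.IN.Stm3

/-! MP_5ecade_al (helper83), brick T11: gluing of two commuting subgroups. -/

set_option autoImplicit false

open scoped BigOperators Classical

noncomputable section

namespace Pool.Agent.K3h7.IN

open Pool.Agent.K3h83.IN

/-- the center is cyclic if it is represented faithfully by an irreducible representation -/
theorem center_cyclic {M V : Type} [Group M] [Finite M] [AddCommGroup V] [Module ℂ V]
    [FiniteDimensional ℂ V] (σ : Representation ℂ M V) (hirr : σ.IsIrreducible)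
    (hf : ∀ z ∈ Subgroup.center M, σ z = 1 → z = 1) : IsCyclic (Subgroup.center M) := by
  haveI := Pool.Agent.H254R3.IN.irr_nontrivial σ hirr
  obtain ⟨v, hv⟩ := exists_ne (0 : V)
  have h1 : ∀ z : Subgroup.center M, ∃ c : ℂ, σ (z : M) = c • LinearMap.id := by
    intro z
    refine Pool.Agent.H254R3.IN.schur σ hirr (σ (z : M)) fun h v => ?_
    have e : (z : M) * h = h * z := ((Subgroup.mem_center_iff.1 z.2) h).symm
    calc σ (z : M) (σ h v) = σ ((z : M) * h) v := by rw [map_mul]; rfl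
      _ = σ (h * z) v := by rw [e]
      _ = σ h (σ (z : M) v) := by rw [map_mul]; rfl
  choose c hc using h1
  have hinj : ∀ a b : ℂ, a • (LinearMap.id : V →ₗ[ℂ] V) = b • LinearMap.id → a = b := by
    intro a b h
    have h2 := LinearMap.congr_fun h v
    simp only [LinearMap.smul_apply, LinearMap.id_apply] at h2
    exact smul_left_injective ℂ hv h2
  let f : Subgroup.center M →* ℂ :=
    { toFun := c
      map_one' := by
        apply hinj
        rw [← hc 1, one_smul]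
        simp only [Subgroup.coe_one, map_one]
        rfl
      map_mul' := by
        intro x y
        apply hinj
        rw [← hc (x * y), Subgroup.coe_mul, map_mul, hc x, hc y]
        ext w
        simp only [LinearMap.smul_apply, LinearMap.id_apply, Module.End.mul_apply, mul_smul] }
  refine isCyclic_of_injective_ringHom f ?_
  rw [injective_iff_map_eq_one]
  intro z hz
  have h3 : σ (z : M) = 1 := by
    rw [hc z]
    have : c z = 1 := hz
    rw [this, one_smul]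
    rfl
  exact Subtype.ext (hf z z.2 h3)

/-- the embedding of `R` in the stabilizer -/
def emb {X : Type} [Group X] {R S : Subgroup X} (h : R ≤ S) : R →* R.subgroupOf S where
  toFun r := ⟨⟨r.1, h r.2⟩, r.2⟩
  map_one' := rfl
  map_mul' _ _ := rfl

theorem t_T11 (h5 : T5) (h6 : T6) : T11 := by
  intro q _ M X _ _ _ _ φ R hcen hSy M₀ hNd hR₀ hR₁ hL₀ hL₁ V _ _ _ σ hirr hfaith
  have hcyc := center_cyclic σ hirr hfaith
  obtain ⟨hNd₁, hprod⟩ := h5 q M hSy hcyc M₀ hNd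
  obtain ⟨V₀, _, _, _, σ₀, Φ₀, hirr₀, hf₀, hΦ₀, hsp₀⟩ := h6 q M hSy M₀ hNd V σ hirr hfaith
  obtain ⟨V₁, _, _, _, σ₁, Φ₁, hirr₁, hf₁, hΦ₁, hsp₁⟩ := h6 q M hSy _ hNd₁ V σ hirr hfaith
  obtain ⟨w₀, hw₀, ht₀⟩ := hL₀ V₀ σ₀ hirr₀ hf₀
  obtain ⟨w₁, hw₁, ht₁⟩ := hL₁ V₁ σ₁ hirr₁ hf₁
  have hcomm : ∀ (a : V₀ →ₗ[ℂ] V₀) (b : V₁ →ₗ[ℂ] V₁), Φ₀ a * Φ₁ b = Φ₁ b * Φ₀ a := by
    intro a b
    refine Submodule.span_induction (p := fun a _ => Φ₀ a * Φ₁ b = Φ₁ b * Φ₀ a) ?_ ?_ ?_ ?_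
      (hsp₀ a)
    · rintro _ ⟨m, rfl⟩
      refine Submodule.span_induction
        (p := fun b _ => Φ₀ (σ₀ m) * Φ₁ b = Φ₁ b * Φ₀ (σ₀ m)) ?_ ?_ ?_ ?_ (hsp₁ b)
      · rintro _ ⟨n, rfl⟩
        rw [hΦ₀, hΦ₁]
        have e : (m : M) * n = n * m := (Subgroup.mem_centralizer_iff.1 n.2) m m.2
        change σ (m : M) * σ (n : M) = σ (n : M) * σ (m : M)
        rw [← map_mul, ← map_mul, e]
      · rw [map_zero, mul_zero, zero_mul]
      · intro x y _ _ hx hy
        rw [map_add, mul_add, add_mul, hx, hy]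
      · intro c x _ hx
        rw [map_smul, mul_smul_comm, smul_mul_assoc, hx]
    · rw [map_zero, mul_zero, zero_mul]
    · intro x y _ _ hx hy
      rw [map_add, mul_add, add_mul, hx, hy]
    · intro c x _ hx
      rw [map_smul, mul_smul_comm, smul_mul_assoc, hx]
  let W : R →* (V →ₗ[ℂ] V) :=
    { toFun := fun r => Φ₀ (w₀ (emb hR₀ r)) * Φ₁ (w₁ (emb hR₁ r))
      map_one' := by
        rw [map_one, map_one, map_one, map_one, map_one, map_one, mul_one]
      map_mul' := by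
        intro r s
        rw [map_mul, map_mul, map_mul, map_mul, map_mul, map_mul]
        calc Φ₀ (w₀ (emb hR₀ r)) * Φ₀ (w₀ (emb hR₀ s)) *
            (Φ₁ (w₁ (emb hR₁ r)) * Φ₁ (w₁ (emb hR₁ s)))
            = Φ₀ (w₀ (emb hR₀ r)) * (Φ₀ (w₀ (emb hR₀ s)) * Φ₁ (w₁ (emb hR₁ r))) *
              Φ₁ (w₁ (emb hR₁ s)) := by simp only [mul_assoc]
          _ = _ := by rw [hcomm]; simp only [mul_assoc] }
  have hWr : ∀ r, W r = Φ₀ (w₀ (emb hR₀ r)) * Φ₁ (w₁ (emb hR₁ r)) := fun _ => rfl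
  have h0 : ∀ (r : R) (a : M₀), W r * σ (a : M) = σ (φ r a) * W r := by
    intro r a
    have e : w₀ (emb hR₀ r) * σ₀ a = σ₀ (ra φ M₀ (emb hR₀ r) a) * w₀ (emb hR₀ r) := by
      ext v
      exact hw₀ (emb hR₀ r) a v
    have e2 : σ (φ r a) = Φ₀ (σ₀ (ra φ M₀ (emb hR₀ r) a)) := by
      rw [hΦ₀]
      rfl
    rw [e2, hWr, ← hΦ₀ a, mul_assoc, ← hcomm, ← mul_assoc, ← map_mul, e, map_mul, mul_assoc]
  have h1 : ∀ (r : R) (a : Subgroup.centralizer (M₀ : Set M)),
      W r * σ (a : M) = σ (φ r a) * W r := by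
    intro r a
    have e : w₁ (emb hR₁ r) * σ₁ a =
        σ₁ (ra φ (Subgroup.centralizer (M₀ : Set M)) (emb hR₁ r) a) * w₁ (emb hR₁ r) := by
      ext v
      exact hw₁ (emb hR₁ r) a v
    have e2 : σ (φ r a) =
        Φ₁ (σ₁ (ra φ (Subgroup.centralizer (M₀ : Set M)) (emb hR₁ r) a)) := by
      rw [hΦ₁]
      rfl
    rw [e2, hWr, ← hΦ₁ a, mul_assoc, ← map_mul, e, map_mul, ← mul_assoc, hcomm, mul_assoc]
  refine ⟨W, fun r m v => ?_, fun r hr => ?_⟩
  · obtain ⟨a, ha, b, hb, rfl⟩ := hprod m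
    have e : W r * σ (a * b) = σ (φ r (a * b)) * W r := by
      rw [map_mul, map_mul, map_mul, ← mul_assoc, h0 r ⟨a, ha⟩, mul_assoc, h1 r ⟨b, hb⟩,
        mul_assoc]
    exact LinearMap.congr_fun e v
  · have e0 : w₀ (emb hR₀ r) = 1 := ht₀ _ fun m => Subtype.ext (hr m)
    have e1 : w₁ (emb hR₁ r) = 1 := ht₁ _ fun m => Subtype.ext (hr m)
    rw [hWr, e0, e1, map_one, map_one, mul_one]

end Pool.Agent.K3h7.IN
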